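import Pool.Agent.Helper4.It.Goals

/-!
# U2: subdivision by a hyperplane
-/

namespace Mono

namespace It

open Finset Filter Topology Mono.Comp

namespace U2

variable {n : ℕ}

theorem idx_congr {B C : Set (Fin n → ℤ)} (h : AddSubgroup.closure B = AddSubgroup.closure C) :
    idx B = idx C := by
  have hs : sat B = sat C := by
    ext x
    change (∃ k : ℤ, k ≠ 0 ∧ k • x ∈ AddSubgroup.closure B) ↔
      ∃ k : ℤ, k ≠ 0 ∧ k • x ∈ AddSubgroup.closure C
    rw [h]
  unfold idx
  rw [h, hs]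

theorem refines_one {F : Finset (Fin n → ℤ)} {a : Fin n → ℤ} (ha : a ∈ F) :
    ∃ c : (Fin n → ℤ) → ℕ, a = ∑ u ∈ F, c u • u := by
  classical
  refine ⟨fun u => if u = a then 1 else 0, ?_⟩
  rw [Finset.sum_eq_single a]
  · simp
  · intro b _ hb
    simp [hb]
  · intro h
    exact absurd ha h

theorem refines_refl (T : Fan n) : Refines T T := fun F hF => ⟨F, hF, fun _ ha => refines_one ha⟩

theorem refines_trans {T T' T'' : Fan n} (h : Refines T'' T') (h' : Refines T' T) :
    Refines T'' T := by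
  intro F'' hF''
  obtain ⟨F', hF', h1⟩ := h F'' hF''
  obtain ⟨F, hF, h2⟩ := h' F' hF'
  choose! d hd using h2
  refine ⟨F, hF, fun a ha => ?_⟩
  obtain ⟨c, hc⟩ := h1 a ha
  refine ⟨fun w => ∑ u ∈ F', c u * d u w, ?_⟩
  calc a = ∑ u ∈ F', c u • u := hc
    _ = ∑ u ∈ F', ∑ w ∈ F, (c u * d u w) • w := by
        refine Finset.sum_congr rfl fun u hu => ?_
        refine (congrArg (fun z => c u • z) (hd u hu)).trans ?_
        rw [Finset.smul_sum]
        exact Finset.sum_congr rfl fun w _ => (mul_smul _ _ _).symm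
    _ = ∑ w ∈ F, (∑ u ∈ F', c u * d u w) • w := by
        rw [Finset.sum_comm]
        exact Finset.sum_congr rfl fun w _ => by rw [Finset.sum_smul]

theorem refines_sum {F : Finset (Fin n → ℤ)} {u u' : Fin n → ℤ} (hu : u ∈ F)
    (hu' : u' ∈ F) : ∃ c : (Fin n → ℤ) → ℕ, u + u' = ∑ w ∈ F, c w • w := by
  classical
  obtain ⟨c, hc⟩ := refines_one hu
  obtain ⟨c', hc'⟩ := refines_one hu'
  refine ⟨fun w => c w + c' w, ?_⟩
  conv_lhs => rw [hc, hc']
  rw [← Finset.sum_add_distrib]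
  exact Finset.sum_congr rfl fun w _ => by rw [add_smul]

open Classical in
/-- the new cones -/
theorem star_unimod {T T1 : Fan n} {u u' : Fin n → ℤ} (hne : u ≠ u')
    (h : ∀ G, G ∈ T1.mx ↔ (G ∈ T.mx ∧ ¬ (u ∈ G ∧ u' ∈ G)) ∨ ∃ F ∈ T.mx, (u ∈ F ∧ u' ∈ F) ∧
      (G = insert (u + u') (F.erase u) ∨ G = insert (u + u') (F.erase u')))
    (hT : Unimod T) : Unimod T1 := by
  have key : ∀ (F : Finset (Fin n → ℤ)) (a b : Fin n → ℤ), a ≠ b → a ∈ F → b ∈ F →
      idx ((insert (a + b) (F.erase a) : Finset (Fin n → ℤ)) : Set (Fin n → ℤ)) =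
        idx (F : Set (Fin n → ℤ)) := by
    intro F a b hab ha hb
    apply idx_congr
    apply le_antisymm
    · rw [AddSubgroup.closure_le]
      intro x hx
      rw [Finset.coe_insert, Set.mem_insert_iff] at hx
      rcases hx with rfl | hx
      · exact add_mem (AddSubgroup.subset_closure ha) (AddSubgroup.subset_closure hb)
      · exact AddSubgroup.subset_closure (Finset.mem_of_mem_erase hx)
    · rw [AddSubgroup.closure_le]
      intro x hx
      by_cases hxa : x = a
      · subst hxa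
        have h1 : x + b ∈ AddSubgroup.closure
            ((insert (x + b) (F.erase x) : Finset (Fin n → ℤ)) : Set (Fin n → ℤ)) :=
          AddSubgroup.subset_closure (Finset.mem_insert_self _ _)
        have h2 : b ∈ AddSubgroup.closure
            ((insert (x + b) (F.erase x) : Finset (Fin n → ℤ)) : Set (Fin n → ℤ)) :=
          AddSubgroup.subset_closure (Finset.mem_insert_of_mem (Finset.mem_erase.2 ⟨hab.symm, hb⟩))
        have h3 := sub_mem h1 h2
        rwa [add_sub_cancel_right] at h3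
      · exact AddSubgroup.subset_closure (Finset.mem_insert_of_mem (Finset.mem_erase.2 ⟨hxa, hx⟩))
  intro G hG
  rcases (h G).1 hG with ⟨h1, -⟩ | ⟨F, hF, ⟨hu, hu'⟩, rfl | rfl⟩
  · exact hT G h1
  · rw [key F u u' hne hu hu']
    exact hT F hF
  · rw [add_comm, key F u' u hne.symm hu' hu]
    exact hT F hF

open Classical in
theorem star_refines {T T1 : Fan n} {u u' : Fin n → ℤ}
    (h : ∀ G, G ∈ T1.mx ↔ (G ∈ T.mx ∧ ¬ (u ∈ G ∧ u' ∈ G)) ∨ ∃ F ∈ T.mx, (u ∈ F ∧ u' ∈ F) ∧
      (G = insert (u + u') (F.erase u) ∨ G = insert (u + u') (F.erase u'))) : Refines T1 T := by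
  intro G hG
  rcases (h G).1 hG with ⟨h1, -⟩ | ⟨F, hF, ⟨hu, hu'⟩, rfl | rfl⟩
  · exact ⟨G, h1, fun a ha => refines_one ha⟩
  · refine ⟨F, hF, fun a ha => ?_⟩
    rcases Finset.mem_insert.1 ha with rfl | ha
    · exact refines_sum hu hu'
    · exact refines_one (Finset.mem_of_mem_erase ha)
  · refine ⟨F, hF, fun a ha => ?_⟩
    rcases Finset.mem_insert.1 ha with rfl | ha
    · exact refines_sum hu hu'
    · exact refines_one (Finset.mem_of_mem_erase ha)

open Classical in
/-- the mixed pairs -/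
noncomputable def mixed (m : Fin n → ℤ) (T : Fan n) : Finset ((Fin n → ℤ) × (Fin n → ℤ)) :=
  (T.mx.biUnion fun F => F ×ˢ F).filter fun p => 0 < m ⬝ᵥ p.1 ∧ m ⬝ᵥ p.2 < 0

theorem mem_mixed {m : Fin n → ℤ} {T : Fan n} {p : (Fin n → ℤ) × (Fin n → ℤ)} :
    p ∈ mixed m T ↔ (∃ F ∈ T.mx, p.1 ∈ F ∧ p.2 ∈ F) ∧ 0 < m ⬝ᵥ p.1 ∧ m ⬝ᵥ p.2 < 0 := by
  classical
  unfold mixed
  rw [Finset.mem_filter, Finset.mem_biUnion]
  simp only [Finset.mem_product]

/-- the size of a pair -/
def sz (m : Fin n → ℤ) (p : (Fin n → ℤ) × (Fin n → ℤ)) : ℤ := max (m ⬝ᵥ p.1) (-(m ⬝ᵥ p.2))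

/-- the smaller value of a pair -/
def mn (m : Fin n → ℤ) (p : (Fin n → ℤ) × (Fin n → ℤ)) : ℤ := min (m ⬝ᵥ p.1) (-(m ⬝ᵥ p.2))

open Classical in
/-- the mixed pairs of the new fan -/
theorem star_mixed {m : Fin n → ℤ} {T T1 : Fan n} {u u' : Fin n → ℤ}
    (h : ∀ G, G ∈ T1.mx ↔ (G ∈ T.mx ∧ ¬ (u ∈ G ∧ u' ∈ G)) ∨ ∃ F ∈ T.mx, (u ∈ F ∧ u' ∈ F) ∧
      (G = insert (u + u') (F.erase u) ∨ G = insert (u + u') (F.erase u')))
    {B : ℤ} (hB : ∀ p ∈ mixed m T, sz m p ≤ B) (hp : (u, u') ∈ mixed m T)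
    (hs : sz m (u, u') = B) (hm : ∀ p ∈ mixed m T, sz m p = B → mn m p ≤ mn m (u, u')) :
    ∀ p ∈ mixed m T1, (p ∈ mixed m T ∧ p ≠ (u, u')) ∨ sz m p < B := by
  intro p hp1
  obtain ⟨⟨G, hG, h1, h2⟩, h3, h4⟩ := mem_mixed.1 hp1
  obtain ⟨-, hu0, hu0'⟩ := mem_mixed.1 hp
  have old : ∀ F ∈ T.mx, p.1 ∈ F → p.2 ∈ F → p ∈ mixed m T := fun F hF h5 h6 =>
    mem_mixed.2 ⟨⟨F, hF, h5, h6⟩, h3, h4⟩
  obtain ⟨w, w'⟩ := p
  simp only at h1 h2 h3 h4 old
  -- the pairs with the new vector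
  have new1 : ∀ F ∈ T.mx, u ∈ F → u' ∈ F → w = u + u' → w' ∈ F → sz m (w, w') < B := by
    rintro F hF hu hu' rfl hw'
    have h5 : (u, w') ∈ mixed m T := mem_mixed.2 ⟨⟨F, hF, hu, hw'⟩, hu0, h4⟩
    have h6 := hB _ h5
    rw [dotProduct_add] at h3
    unfold sz at h6 hs ⊢
    simp only at h6 hs ⊢ hu0 hu0'
    have h7 : m ⬝ᵥ u = B := by omega
    have h8 := hm _ h5 (by unfold sz; simp only; omega)
    unfold mn at h8
    simp only at h8
    rw [dotProduct_add]
    omega
  have new2 : ∀ F ∈ T.mx, u ∈ F → u' ∈ F → w' = u + u' → w ∈ F → sz m (w, w') < B := by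
    rintro F hF hu hu' rfl hw
    have h5 : (w, u') ∈ mixed m T := mem_mixed.2 ⟨⟨F, hF, hw, hu'⟩, h3, hu0'⟩
    have h6 := hB _ h5
    rw [dotProduct_add] at h4
    unfold sz at h6 hs ⊢
    simp only at h6 hs ⊢ hu0 hu0'
    have h7 : -(m ⬝ᵥ u') = B := by omega
    have h8 := hm _ h5 (by unfold sz; simp only; omega)
    unfold mn at h8
    simp only at h8
    rw [dotProduct_add]
    omega
  rcases (h G).1 hG with ⟨h5, h6⟩ | ⟨F, hF, ⟨hu, hu'⟩, rfl | rfl⟩
  · refine Or.inl ⟨old G h5 h1 h2, ?_⟩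
    intro he
    have e1 := congrArg Prod.fst he
    have e2 := congrArg Prod.snd he
    simp only at e1 e2
    subst e1
    subst e2
    exact h6 ⟨h1, h2⟩
  · rcases Finset.mem_insert.1 h1 with h1 | h1 <;> rcases Finset.mem_insert.1 h2 with h2 | h2
    · rw [h1] at h3
      rw [h2] at h4
      omega
    · exact Or.inr (new1 F hF hu hu' h1 (Finset.mem_of_mem_erase h2))
    · exact Or.inr (new2 F hF hu hu' h2 (Finset.mem_of_mem_erase h1))
    · refine Or.inl ⟨old F hF (Finset.mem_of_mem_erase h1) (Finset.mem_of_mem_erase h2), ?_⟩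
      intro he
      exact Finset.ne_of_mem_erase h1 (congrArg Prod.fst he)
  · rcases Finset.mem_insert.1 h1 with h1 | h1 <;> rcases Finset.mem_insert.1 h2 with h2 | h2
    · rw [h1] at h3
      rw [h2] at h4
      omega
    · exact Or.inr (new1 F hF hu hu' h1 (Finset.mem_of_mem_erase h2))
    · exact Or.inr (new2 F hF hu hu' h2 (Finset.mem_of_mem_erase h1))
    · refine Or.inl ⟨old F hF (Finset.mem_of_mem_erase h1) (Finset.mem_of_mem_erase h2), ?_⟩
      intro he
      exact Finset.ne_of_mem_erase h2 (congrArg Prod.snd he)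

open Classical in
theorem main (hstar : Star2) (m : Fin n → ℤ) (B : ℕ) : ∀ T : Fan n, Unimod T →
    (∀ p ∈ mixed m T, sz m p ≤ B) → ∃ T' : Fan n, Unimod T' ∧ Refines T' T ∧ mixed m T' = ∅ := by
  induction B with
  | zero =>
    intro T hT h
    refine ⟨T, hT, refines_refl T, ?_⟩
    rw [Finset.eq_empty_iff_forall_notMem]
    intro p hp
    have h1 := h p hp
    obtain ⟨-, h2, h3⟩ := mem_mixed.1 hp
    unfold sz at h1
    simp only [Nat.cast_zero] at h1
    omega
  | succ B ih =>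
    have inner : ∀ (c : ℕ) (T : Fan n), Unimod T → (∀ p ∈ mixed m T, sz m p ≤ (B + 1 : ℕ)) →
        ((mixed m T).filter (fun p => sz m p = (B + 1 : ℕ))).card = c →
        ∃ T' : Fan n, Unimod T' ∧ Refines T' T ∧ mixed m T' = ∅ := by
      intro c
      induction c using Nat.strong_induction_on with
      | _ c ihc =>
        intro T hT h hc
        by_cases hne : ((mixed m T).filter (fun p => sz m p = (B + 1 : ℕ))).Nonempty
        · obtain ⟨p, hp, hmax⟩ := Finset.exists_max_image _ (mn m) hne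
          obtain ⟨hp1, hp2⟩ := Finset.mem_filter.1 hp
          obtain ⟨u, u'⟩ := p
          obtain ⟨hF, hu0, hu0'⟩ := mem_mixed.1 hp1
          have hne' : u ≠ u' := by
            rintro rfl
            simp only at hu0 hu0'
            omega
          obtain ⟨T1, hT1⟩ := hstar n T u u' hne' hF
          have hT1' : ∀ G, G ∈ T1.mx ↔ (G ∈ T.mx ∧ ¬ (u ∈ G ∧ u' ∈ G)) ∨ ∃ F ∈ T.mx,
              (u ∈ F ∧ u' ∈ F) ∧ (G = insert (u + u') (F.erase u) ∨
                G = insert (u + u') (F.erase u')) := by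
            intro G
            rw [hT1 G]
          have hmix := star_mixed hT1' h hp1 hp2 (fun q hq hq2 =>
            hmax q (Finset.mem_filter.2 ⟨hq, hq2⟩))
          have hsub : (mixed m T1).filter (fun p => sz m p = (B + 1 : ℕ)) ⊂
              (mixed m T).filter (fun p => sz m p = (B + 1 : ℕ)) := by
            rw [Finset.ssubset_iff_of_subset]
            · refine ⟨(u, u'), hp, fun hq => ?_⟩
              obtain ⟨hq1, hq2⟩ := Finset.mem_filter.1 hq
              rcases hmix _ hq1 with ⟨-, h5⟩ | h5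
              · exact h5 rfl
              · omega
            · intro q hq
              obtain ⟨hq1, hq2⟩ := Finset.mem_filter.1 hq
              rcases hmix _ hq1 with ⟨h5, -⟩ | h5
              · exact Finset.mem_filter.2 ⟨h5, hq2⟩
              · omega
          obtain ⟨T', h5, h6, h7⟩ := ihc _ (by rw [← hc]; exact Finset.card_lt_card hsub) T1
            (star_unimod hne' hT1' hT) (fun q hq => by
              rcases hmix q hq with ⟨h5, -⟩ | h5
              · exact h q h5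
              · exact h5.le) rfl
          exact ⟨T', h5, refines_trans h6 (star_refines hT1'), h7⟩
        · refine ih T hT fun p hp => ?_
          have h1 := h p hp
          have h2 : sz m p ≠ (B + 1 : ℕ) := fun h2 => hne ⟨p, Finset.mem_filter.2 ⟨hp, h2⟩⟩
          push_cast at h1 h2
          omega
    intro T hT h
    exact inner _ T hT h rfl

end U2

/-- Subdivision by the hyperplane `m = 0`. -/
theorem noMix (h : Star2) : NoMix := by
  intro n T m hT
  obtain ⟨T', h1, h2, h3⟩ := U2.main h m ((U2.mixed m T).sup fun p => (U2.sz m p).toNat) T hT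
    (fun p hp => by
      have h4 : (U2.sz m p).toNat ≤ (U2.mixed m T).sup fun p => (U2.sz m p).toNat :=
        Finset.le_sup (f := fun p => (U2.sz m p).toNat) hp
      have h5 := Int.self_le_toNat (U2.sz m p)
      have h6 : ((U2.sz m p).toNat : ℤ) ≤
        (((U2.mixed m T).sup fun p => (U2.sz m p).toNat : ℕ) : ℤ) := by exact_mod_cast h4
      exact h5.trans h6)
  refine ⟨T', h1, h2, fun F hF => ?_⟩
  by_contra hcon
  push Not at hcon
  obtain ⟨⟨a, ha, ha0⟩, b, hb, hb0⟩ := hcon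
  have h4 : (b, a) ∈ U2.mixed m T' := U2.mem_mixed.2 ⟨⟨F, hF, hb, ha⟩, hb0, ha0⟩
  rw [h3] at h4
  exact absurd h4 (Finset.notMem_empty _)

end It

end Mono
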